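import Mathlib

/-!
A doubly-derived palintiple built from a shifted-symmetric `(n, b)`-palintiple has multiplier `b`.
-/

namespace Pool.Agent.Results.MP_6bbb8b_nt.MultiplierEqBase

/-- `(d k, …, d 0)` is an `(n, b)`-palintiple with `k + 1` digits. -/
def IsPalintiple (n b k : ℕ) (d : ℕ → ℕ) : Prop :=
  1 < n ∧ n < b ∧ 1 ≤ k ∧ (∀ j ≤ k, d j < b) ∧ d 0 ≠ 0 ∧
    ∑ j ∈ Finset.range (k + 1), d j * b ^ j
      = n * ∑ j ∈ Finset.range (k + 1), d (k - j) * b ^ j

/-- `c` is the sequence of carries of the multiplication of the reversal by `n`. -/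
def IsCarries (n b k : ℕ) (d c : ℕ → ℕ) : Prop :=
  c 0 = 0 ∧ c (k + 1) = 0 ∧ ∀ j ≤ k, n * d (k - j) + c j = d j + b * c (j + 1)

/-- shifted symmetry of the carries. -/
def ShiftedSymmetric (k : ℕ) (c : ℕ → ℕ) : Prop := ∀ j ≤ k, c j = c (k - j + 1)

theorem carry_lt {n b k : ℕ} {d c : ℕ → ℕ} (hp : IsPalintiple n b k d)
    (hc : IsCarries n b k d c) : ∀ j ≤ k + 1, c j < n := by
  obtain ⟨h1, h2, h3, h4, h5, -⟩ := hp
  obtain ⟨c0, -, hc⟩ := hc
  intro j
  induction j with
  | zero => intro _; omega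
  | succ j ih =>
    intro hj
    have e := hc j (by omega)
    have l := ih (by omega)
    have hd := h4 (k - j) (by omega)
    by_contra hcon
    have h6 : n ≤ c (j + 1) := not_lt.1 hcon
    have h7 : b * n ≤ b * c (j + 1) := Nat.mul_le_mul_left b h6
    have h8 : n * d (k - j) ≤ n * (b - 1) := Nat.mul_le_mul_left n (by omega)
    have h9 : n * (b - 1) + n = b * n := by
      rw [Nat.mul_sub, mul_one, Nat.sub_add_cancel (by nlinarith)]
      ring
    omega

/-- the arithmetic core. -/
theorem core {n b n' D f C dk u v : ℤ} (hn : 2 ≤ n) (hD : 1 ≤ D) (hf : 1 ≤ f)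
    (hC : 1 ≤ C) (hCn : C ≤ n - 1) (hv : 1 ≤ v) (huD : u ≤ D) (hu : 1 ≤ u)
    (h1 : D * (D * f) = n' * v - u) (h2 : D * dk = n' * u - v)
    (h3 : dk = n * (D * f) + C) (h4 : (n ^ 2 - 1) * (D * f) = (b - n) * C) : n' = b := by
  have key : (u - n * v) * (D ^ 2 * f) = D * v * C - (u ^ 2 - v ^ 2) := by
    have e1 : n' * v = D * (D * f) + u := by linarith
    have e2 : n' * u = D * dk + v := by linarith
    have e3 : (n' * u) * v = (n' * v) * u := by ring
    rw [e1, e2, h3] at e3
    nlinarith [e3]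
  have hw : u - n * v = 0 := by
    by_contra hne
    rcases lt_or_gt_of_ne hne with hlt | hgt
    · -- w ≤ -1
      have a1 : (u - n * v) * (D ^ 2 * f) ≤ -(D ^ 2) := by
        have : 0 < D ^ 2 * f := by positivity
        have h5 : D ^ 2 ≤ D ^ 2 * f := by nlinarith [sq_nonneg D]
        nlinarith
      have a2 : 0 < D * v * C := by positivity
      have a3 : u ^ 2 ≤ D ^ 2 := by nlinarith
      nlinarith [sq_nonneg v]
    · have a1 : D ^ 2 ≤ (u - n * v) * (D ^ 2 * f) := by
        have h5 : D ^ 2 ≤ D ^ 2 * f := by nlinarith [sq_nonneg D]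
        have : 0 < D ^ 2 * f := by positivity
        nlinarith
      have a2 : D * v * C ≤ D * v * (n - 1) := by
        have : 0 < D * v := by positivity
        nlinarith
      have a3 : D * (v * (n - 1)) < D * D := by
        have : v * (n - 1) < D := by nlinarith
        nlinarith
      have a4 : v ^ 2 ≤ u ^ 2 := by
        have : v ≤ u := by nlinarith
        nlinarith
      nlinarith
  have hu' : u = n * v := by linarith
  rw [hu'] at h1 h2
  rw [h3] at h2
  have h5 : D * C = (n ^ 2 - 1) * v := by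
    have : D * (n * (D * f) + C) = n * (D * (D * f)) + D * C := by ring
    rw [this, h1] at h2
    nlinarith [h2]
  have h6 : (n ^ 2 - 1) * (D * (D * f)) = (n ^ 2 - 1) * ((b - n) * v) := by
    calc (n ^ 2 - 1) * (D * (D * f)) = D * ((n ^ 2 - 1) * (D * f)) := by ring
      _ = D * ((b - n) * C) := by rw [h4]
      _ = (b - n) * (D * C) := by ring
      _ = (n ^ 2 - 1) * ((b - n) * v) := by rw [h5]; ring
  have hn2 : (n ^ 2 - 1 : ℤ) ≠ 0 := by nlinarith
  have h7 := mul_left_cancel₀ hn2 h6
  rw [h1] at h7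
  have h8 : (n' - n) * v = (b - n) * v := by linarith [h7]
  have h9 := mul_right_cancel₀ (by positivity : v ≠ 0) h8
  linarith

/-- If the digits of a shifted-symmetric `(n, b)`-palintiple are the inner carries of an
`(n', b')`-palintiple with two more digits, then `n' = b`. -/
theorem result {n b k : ℕ} {d c : ℕ → ℕ} (hp : IsPalintiple n b k d)
    (hc : IsCarries n b k d c) (hs : ShiftedSymmetric k c)
    {n' b' : ℕ} {d' c' : ℕ → ℕ} (hp' : IsPalintiple n' b' (k + 2) d')
    (hc' : IsCarries n' b' (k + 2) d' c')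
    (hin : ∀ j ≤ k, c' (j + 1) = d j) (hlast : c' (k + 2) = 0) : n' = b := by
  have hlt := carry_lt hp hc
  have hlt' := carry_lt hp' hc'
  obtain ⟨h1, h2, h3, h4, h5, -⟩ := hp
  obtain ⟨c0, ck1, hc⟩ := hc
  obtain ⟨h1', h2', h3', h4', h5', -⟩ := hp'
  obtain ⟨c0', ck1', hc'⟩ := hc'
  -- the palintiple
  have e0 : n * d k = d 0 + b * c 1 := by simpa [c0] using hc 0 (by omega)
  have ek : n * d 0 + c k = d k := by simpa [ck1] using hc k le_rfl
  have hck : c 1 = c k := by
    have := hs 1 (by omega)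
    rwa [Nat.sub_add_cancel (by omega)] at this
  rw [← hck] at ek
  have hC : c 1 < n := hlt 1 (by omega)
  have hd0 : 1 ≤ d 0 := Nat.one_le_iff_ne_zero.2 h5
  have hCpos : 1 ≤ c 1 := by
    by_contra hcon
    have : c 1 = 0 := by omega
    rw [this] at ek e0
    have : d k = n * d 0 := by omega
    rw [this] at e0
    nlinarith
  -- the derived palintiple
  set m : ℕ := n' ^ 2 - 1 with hm
  have hm1 : m + 1 = n' ^ 2 := by
    rw [hm]; exact Nat.sub_add_cancel (Nat.one_le_pow _ _ (by omega))
  have hmpos : 0 < m := by nlinarith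
  have f0 : n' * d' (k + 2) = d' 0 + b' * d 0 := by
    have := hc' 0 (by omega)
    rw [c0', hin 0 (by omega)] at this
    simpa using this
  have fK : n' * d' 0 = d' (k + 2) := by
    have := hc' (k + 2) le_rfl
    rw [ck1', hlast] at this
    simpa using this
  have g0 : m * d' 0 = b' * d 0 := by
    rw [← fK] at f0
    have : n' * (n' * d' 0) = m * d' 0 + d' 0 := by
      have : n' * (n' * d' 0) = n' ^ 2 * d' 0 := by ring
      rw [this, ← hm1]; ring
    omega
  have f1 : n' * d' (k + 1) + d 0 = d' 1 + b' * d 1 := by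
    have := hc' 1 (by omega)
    rw [hin 0 (by omega), hin 1 (by omega), show k + 2 - 1 = k + 1 by omega] at this
    exact this
  have fk : n' * d' 1 + d k = d' (k + 1) := by
    have := hc' (k + 1) (by omega)
    rw [hlast, hin k le_rfl, show k + 2 - (k + 1) = 1 by omega] at this
    simpa using this
  have g1 : m * d' 1 + (n' * d k + d 0) = b' * d 1 := by
    rw [← fk] at f1
    have : n' * (n' * d' 1 + d k) = m * d' 1 + d' 1 + n' * d k := by
      have : n' * (n' * d' 1 + d k) = n' ^ 2 * d' 1 + n' * d k := by ring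
      rw [this, ← hm1]; ring
    omega
  have g2 : m * d' (k + 1) + (n' * d 0 + d k) = n' * b' * d 1 := by
    rw [← fk]
    have h10 : n' * (m * d' 1 + (n' * d k + d 0)) = n' * (b' * d 1) := by rw [g1]
    have : m * (n' * d' 1 + d k) + (n' * d 0 + d k)
        = n' * (m * d' 1 + (n' * d k + d 0)) := by
      have : m * (n' * d' 1 + d k) + (n' * d 0 + d k)
        = n' * (m * d' 1) + (m + 1) * d k + n' * d 0 := by ring
      rw [this, hm1]; ring
    rw [this, h10]; ring
  set D : ℕ := Nat.gcd (d 0) m with hD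
  have hDpos : 0 < D := Nat.gcd_pos_of_pos_left _ hd0
  have hmD : m ∣ b' * D := by
    rw [hD, ← Nat.gcd_mul_left]
    exact Nat.dvd_gcd ⟨d' 0, g0.symm⟩ (Dvd.intro_left b' rfl)
  obtain ⟨f, hf⟩ : D ∣ d 0 := Nat.gcd_dvd_left _ _
  have hu : m ∣ D * (n' * d k + d 0) := by
    have h11 : D * (m * d' 1) + D * (n' * d k + d 0) = D * (b' * d 1) := by rw [← g1]; ring
    have h12 : m ∣ D * (b' * d 1) := by
      have : D * (b' * d 1) = b' * D * d 1 := by ring
      rw [this]; exact Dvd.dvd.mul_right hmD _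
    have h13 : m ∣ D * (m * d' 1) := by
      have : D * (m * d' 1) = m * (D * d' 1) := by ring
      rw [this]; exact dvd_mul_right _ _
    exact (Nat.dvd_add_right h13).1 (h11 ▸ h12)
  have hv : m ∣ D * (n' * d 0 + d k) := by
    have h11 : D * (m * d' (k + 1)) + D * (n' * d 0 + d k) = D * (n' * b' * d 1) := by
      rw [← g2]; ring
    have h12 : m ∣ D * (n' * b' * d 1) := by
      have : D * (n' * b' * d 1) = b' * D * (n' * d 1) := by ring
      rw [this]; exact Dvd.dvd.mul_right hmD _
    have h13 : m ∣ D * (m * d' (k + 1)) := by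
      have : D * (m * d' (k + 1)) = m * (D * d' (k + 1)) := by ring
      rw [this]; exact dvd_mul_right _ _
    exact (Nat.dvd_add_right h13).1 (h11 ▸ h12)
  obtain ⟨u, hu⟩ := hu
  obtain ⟨v, hv⟩ := hv
  have hdk' : d k < n' := by rw [← hin k le_rfl]; exact hlt' (k + 1) (by omega)
  have hd0' : d 0 < n' := by rw [← hin 0 (by omega)]; exact hlt' 1 (by omega)
  have huD : u ≤ D := by
    have h14 : n' * d k + d 0 ≤ m := by
      have : n' * d k ≤ n' * (n' - 1) := Nat.mul_le_mul_left _ (by omega)
      have h15 : n' * (n' - 1) + n' = n' ^ 2 := by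
        obtain ⟨q, hq⟩ : ∃ q, n' = q + 1 := ⟨n' - 1, by omega⟩
        rw [hq, Nat.add_sub_cancel]; ring
      omega
    have h16 : m * u ≤ m * D := by
      rw [← hu, mul_comm m D]; exact Nat.mul_le_mul_left _ h14
    exact Nat.le_of_mul_le_mul_left h16 hmpos
  have hvpos : 1 ≤ v := by
    by_contra hcon
    have : v = 0 := by omega
    rw [this, mul_zero] at hv
    have : 0 < D * (n' * d 0 + d k) := by positivity
    omega
  have hupos : 1 ≤ u := by
    by_contra hcon
    have : u = 0 := by omega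
    rw [this, mul_zero] at hu
    have : 0 < D * (n' * d k + d 0) := by positivity
    omega
  have hfpos : 1 ≤ f := by
    by_contra hcon
    have : f = 0 := by omega
    rw [this] at hf
    omega
  -- pass to the integers
  have hmz : (m : ℤ) = (n' : ℤ) ^ 2 - 1 := by
    have : (m : ℤ) + 1 = (n' : ℤ) ^ 2 := by exact_mod_cast hm1
    linarith
  have huz : (D : ℤ) * (n' * d k + d 0) = m * u := by exact_mod_cast hu
  have hvz : (D : ℤ) * (n' * d 0 + d k) = m * v := by exact_mod_cast hv
  have hm0 : (m : ℤ) ≠ 0 := by positivity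
  have k1 : (D : ℤ) * d 0 = n' * v - u := by
    apply mul_left_cancel₀ hm0
    have : (m : ℤ) * (n' * v - u) = n' * (m * v) - m * u := by ring
    rw [this, ← huz, ← hvz, hmz]; ring
  have k2 : (D : ℤ) * d k = n' * u - v := by
    apply mul_left_cancel₀ hm0
    have : (m : ℤ) * (n' * u - v) = n' * (m * u) - m * v := by ring
    rw [this, ← huz, ← hvz, hmz]; ring
  have hfz : (d 0 : ℤ) = D * f := by exact_mod_cast hf
  have ekz : (d k : ℤ) = n * d 0 + c 1 := by exact_mod_cast ek.symm
  have e0z : (n : ℤ) * d k = d 0 + b * c 1 := by exact_mod_cast e0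
  rw [hfz] at k1 ekz
  have h4z : ((n : ℤ) ^ 2 - 1) * (D * f) = (b - n) * c 1 := by
    rw [hfz, ekz] at e0z
    linarith
  have := core (n := n) (b := b) (n' := n') (D := D) (f := f) (C := c 1) (dk := d k)
    (u := u) (v := v) (by exact_mod_cast h1) (by exact_mod_cast hDpos) (by exact_mod_cast hfpos)
    (by exact_mod_cast hCpos) (by have : (c 1 : ℤ) < n := by exact_mod_cast hC
                                  linarith) (by exact_mod_cast hvpos) (by exact_mod_cast huD)
    (by exact_mod_cast hupos) k1 k2 ekz h4z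
  exact_mod_cast this

end Pool.Agent.Results.MP_6bbb8b_nt.MultiplierEqBase
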